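import Mathlib

set_option autoImplicit false

namespace Pool.Agent.TH454.CM

/-- The choice number of a graph: the least `s` such that every assignment of lists of exactly `s`
colours to the vertices admits a proper colouring from the lists. -/
noncomputable def choiceNum {V : Type} (G : SimpleGraph V) : ℕ :=
  sInf {s : ℕ | ∀ L : V → Finset ℕ, (∀ v, (L v).card = s) →
    ∃ f : V → ℕ, (∀ v, f v ∈ L v) ∧ ∀ u v, G.Adj u v → f u ≠ f v}

/-- `y` is a fractional cover of the ground set `Fin m` by its subsets. -/
def IsFracCover (m : ℕ) (y : Finset (Fin m) → ℝ) : Prop :=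
  (∀ T, 0 ≤ y T) ∧
    ∀ a : Fin m, 1 ≤ ∑ T ∈ Finset.univ.filter (fun T : Finset (Fin m) => a ∈ T), y T

/-- `C` is an (integral) cover of the ground set `Fin m` by its subsets. -/
def IsCover (m : ℕ) (C : Finset (Finset (Fin m))) : Prop :=
  ∀ a : Fin m, ∃ T ∈ C, a ∈ T

/-- For all nonnegative costs `w` on the subsets of `Fin m` and all fractional covers `y` there is
an integral cover whose cost is at most `g` times the cost of `y`. -/
def GapAtMost (m : ℕ) (g : ℝ) : Prop :=
  ∀ w y : Finset (Fin m) → ℝ, (∀ T, 0 ≤ w T) → IsFracCover m y →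
    ∃ C : Finset (Finset (Fin m)), IsCover m C ∧ ∑ T ∈ C, w T ≤ g * ∑ T, w T * y T

/-- The integrality gap of the weighted set cover problem on an `m`-element ground set. -/
noncomputable def gap (m : ℕ) : ℝ := sInf {g : ℝ | GapAtMost m g}

end Pool.Agent.TH454.CM
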