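import Mathlib
import Pool.Agent.TH454.CM.Defs

set_option autoImplicit false

namespace Pool.Agent.TH454.CM

open Finset Filter

/-- Lower bound: if the integrality gap exceeds `g` then lists of size `g k` may be bad. -/
theorem lower {m : ℕ} {g : ℝ} (hg0 : 0 ≤ g) (hg : ¬ GapAtMost m g) :
    ∃ K0 : ℕ, ∀ k : ℕ, K0 ≤ k → ∃ L : Fin k → Fin m → Finset ℕ,
      (∀ i a, g * k ≤ ((L i a).card : ℝ)) ∧
      ¬ ∃ f : Fin k → Fin m → ℕ, (∀ i a, f i a ∈ L i a) ∧
        ∀ i j, i ≠ j → ∀ a b, f i a ≠ f j b := by
  classical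
  unfold GapAtMost at hg
  push Not at hg
  obtain ⟨w, y, hw, hy, hC⟩ := hg
  set Ω := ∑ T, w T * y T with hΩ
  -- cheapest cover
  have hcovne : ((Finset.univ : Finset (Finset (Finset (Fin m)))).filter
      (fun C => IsCover m C)).Nonempty := by
    refine ⟨Finset.univ, ?_⟩
    rw [Finset.mem_filter]
    refine ⟨Finset.mem_univ _, fun a => ⟨{a}, Finset.mem_univ _, by simp⟩⟩
  obtain ⟨C0, hC0, hC0min⟩ := Finset.exists_min_image _ (fun C => ∑ T ∈ C, w T) hcovne
  rw [Finset.mem_filter] at hC0
  set OPT := ∑ T ∈ C0, w T with hOPT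
  have hgap : g * Ω < OPT := hC C0 hC0.2
  have hOPTle : ∀ C, IsCover m C → OPT ≤ ∑ T ∈ C, w T := by
    intro C hCc
    exact hC0min C (Finset.mem_filter.2 ⟨Finset.mem_univ _, hCc⟩)
  set W0 := ∑ T, w T with hW0
  obtain ⟨K0, hK0⟩ := exists_nat_gt (W0 / (OPT - g * Ω))
  refine ⟨K0, fun k hk => ?_⟩
  let n : Finset (Fin m) → ℕ := fun T => ⌈y T * (g * k)⌉₊
  let e : (Σ _ : Finset (Fin m), ℕ) → ℕ := fun s => Encodable.encode (s.1, s.2)
  have he : Function.Injective e := by
    intro s s' h
    have h1 := Encodable.encode_injective h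
    rw [Prod.mk.injEq] at h1
    rcases s with ⟨a, b⟩
    rcases s' with ⟨a', b'⟩
    simp only at h1
    rw [h1.1, h1.2]
  let S : Fin m → Finset (Σ _ : Finset (Fin m), ℕ) := fun a =>
    (Finset.univ.filter (fun T : Finset (Fin m) => a ∈ T)).sigma (fun T => Finset.range (n T))
  let U : Finset (Σ _ : Finset (Fin m), ℕ) :=
    (Finset.univ : Finset (Finset (Fin m))).sigma (fun T => Finset.range (n T))
  have hSU : ∀ a, S a ⊆ U := by
    intro a s hs
    simp only [S, U, Finset.mem_sigma, Finset.mem_filter, Finset.mem_univ, true_and] at hs ⊢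
    exact hs.2
  have hgk : 0 ≤ g * (k : ℝ) := mul_nonneg hg0 (Nat.cast_nonneg _)
  refine ⟨fun _ a => (S a).image e, ?_, ?_⟩
  · intro i a
    rw [Finset.card_image_of_injective _ he, Finset.card_sigma]
    push_cast
    simp only [Finset.card_range]
    calc g * (k : ℝ) = 1 * (g * k) := by ring
      _ ≤ (∑ T ∈ Finset.univ.filter (fun T : Finset (Fin m) => a ∈ T), y T) * (g * k) :=
          mul_le_mul_of_nonneg_right (hy.2 a) hgk
      _ = ∑ T ∈ Finset.univ.filter (fun T : Finset (Fin m) => a ∈ T), y T * (g * k) := by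
          rw [Finset.sum_mul]
      _ ≤ ∑ T ∈ Finset.univ.filter (fun T : Finset (Fin m) => a ∈ T), (n T : ℝ) :=
          Finset.sum_le_sum fun T _ => Nat.le_ceil _
  · rintro ⟨f, hf1, hf2⟩
    have hex : ∀ i a, ∃ s, s ∈ S a ∧ e s = f i a := by
      intro i a
      exact Finset.mem_image.1 (hf1 i a)
    choose s hs1 hs2 using hex
    let K : Fin k → Finset (Σ _ : Finset (Fin m), ℕ) := fun i => Finset.univ.image (s i)
    have hKU : ∀ i, K i ⊆ U := by
      intro i c hc
      obtain ⟨a, _, rfl⟩ := Finset.mem_image.1 hc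
      exact hSU a (hs1 i a)
    have hdisj : ∀ i j, i ≠ j → Disjoint (K i) (K j) := by
      intro i j hij
      rw [Finset.disjoint_left]
      intro c hc hc'
      obtain ⟨a, _, ha⟩ := Finset.mem_image.1 hc
      obtain ⟨b, _, hb⟩ := Finset.mem_image.1 hc'
      apply hf2 i j hij a b
      rw [← hs2 i a, ← hs2 j b, ha, hb]
    have hcost : ∀ i, OPT ≤ ∑ c ∈ K i, w c.1 := by
      intro i
      have hcov : IsCover m ((K i).image Sigma.fst) := by
        intro a
        refine ⟨(s i a).1, ?_, ?_⟩
        · exact Finset.mem_image_of_mem _ (Finset.mem_image_of_mem _ (Finset.mem_univ _))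
        · have := hs1 i a
          simp only [S, Finset.mem_sigma, Finset.mem_filter, Finset.mem_univ, true_and] at this
          exact this.1
      refine (hOPTle _ hcov).trans ?_
      rw [← Finset.sum_fiberwise_of_maps_to (s := K i) (t := (K i).image Sigma.fst)
        (g := Sigma.fst) (fun c hc => Finset.mem_image_of_mem _ hc)]
      apply Finset.sum_le_sum
      intro T hT
      obtain ⟨c, hc, hcT⟩ := Finset.mem_image.1 hT
      have h1 : w c.1 ≤ ∑ c' ∈ (K i).filter (fun c' => c'.1 = T), w c'.1 := by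
        apply Finset.single_le_sum (f := fun c' : (Σ _ : Finset (Fin m), ℕ) => w c'.1)
          (fun c' _ => hw _)
        exact Finset.mem_filter.2 ⟨hc, hcT⟩
      rw [hcT] at h1
      exact h1
    have htotal : (k : ℝ) * OPT ≤ ∑ c ∈ U, w c.1 := by
      calc (k : ℝ) * OPT = ∑ _i : Fin k, OPT := by simp
        _ ≤ ∑ i : Fin k, ∑ c ∈ K i, w c.1 := Finset.sum_le_sum fun i _ => hcost i
        _ = ∑ c ∈ Finset.univ.biUnion K, w c.1 := by
            rw [Finset.sum_biUnion]
            intro i _ j _ hij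
            exact hdisj i j hij
        _ ≤ ∑ c ∈ U, w c.1 := by
            apply Finset.sum_le_sum_of_subset_of_nonneg
            · intro c hc
              obtain ⟨i, _, hi⟩ := Finset.mem_biUnion.1 hc
              exact hKU i hi
            · intro c _ _
              exact hw _
    have hU : ∑ c ∈ U, w c.1 ≤ g * k * Ω + W0 := by
      have h1 : ∑ c ∈ U, w c.1 = ∑ T, (n T : ℝ) * w T := by
        simp only [U]
        rw [Finset.sum_sigma]
        apply Finset.sum_congr rfl
        intro T _
        simp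
      rw [h1]
      calc ∑ T, (n T : ℝ) * w T ≤ ∑ T, (y T * (g * k) + 1) * w T := by
            apply Finset.sum_le_sum
            intro T _
            apply mul_le_mul_of_nonneg_right _ (hw T)
            exact (Nat.ceil_lt_add_one (mul_nonneg (hy.1 T) hgk)).le
        _ = g * k * Ω + W0 := by
            rw [hΩ, hW0, Finset.mul_sum, ← Finset.sum_add_distrib]
            apply Finset.sum_congr rfl
            intro T _
            ring
    have hk' : W0 / (OPT - g * Ω) < k := by
      refine hK0.trans_le ?_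
      exact_mod_cast hk
    rw [div_lt_iff₀ (by linarith)] at hk'
    nlinarith

end Pool.Agent.TH454.CM
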