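import Mathlib
import Pool.Agent.TH454.CM.Defs

set_option autoImplicit false

namespace Pool.Agent.TH454.CM

open Finset

/-- Elementary inequality: `1/(1-z) ≤ 1 + (1+η) z` for `0 ≤ z ≤ η/(1+η)`. -/
theorem inv_one_sub_le {η z : ℝ} (hη : 0 < η) (hz : 0 ≤ z) (hz2 : z * (1 + η) ≤ η) :
    (1 - z)⁻¹ ≤ 1 + (1 + η) * z := by
  have h1 : z < 1 := by
    by_contra h
    rw [not_lt] at h
    nlinarith
  have h2 : 0 < 1 - z := by linarith
  rw [inv_le_iff_one_le_mul₀ h2]
  nlinarith [mul_nonneg hz (sub_nonneg.2 hz2)]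

/-- One list: removing `d` of the `s` colours. -/
theorem pow_step {η : ℝ} (hη : 0 < η) {q : ℕ} {s d : ℝ} (hd : 0 ≤ d) (hs : 0 < s)
    (h : (q : ℝ) * d * (1 + η) ≤ η * s) (hq : 1 ≤ q) :
    ((s - d)⁻¹) ^ q ≤ (s⁻¹) ^ q + (1 + η) * q * ((s⁻¹) ^ (q + 1) * d) := by
  have hq' : (1 : ℝ) ≤ q := by exact_mod_cast hq
  set x := d / s with hx
  have hx0 : 0 ≤ x := div_nonneg hd hs.le
  have hxs : x * s = d := by rw [hx]; field_simp
  have hqx : (q : ℝ) * x * (1 + η) ≤ η := by
    have : (q : ℝ) * x * (1 + η) = ((q : ℝ) * d * (1 + η)) / s := by rw [hx]; ring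
    rw [this, div_le_iff₀ hs]
    exact h
  have hx1 : x < 1 := by
    have h1 : x * (1 + η) ≤ (q : ℝ) * x * (1 + η) := by
      have : x ≤ (q : ℝ) * x := by nlinarith
      nlinarith
    by_contra hc
    rw [not_lt] at hc
    nlinarith
  have h1x : 0 < 1 - x := by linarith
  have hsd : s - d = s * (1 - x) := by rw [← hxs]; ring
  have hbern : 1 - (q : ℝ) * x ≤ (1 - x) ^ q := by
    have := one_add_mul_le_pow (a := -x) (by linarith) q
    calc 1 - (q : ℝ) * x = 1 + (q : ℝ) * (-x) := by ring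
      _ ≤ (1 + -x) ^ q := this
      _ = (1 - x) ^ q := by ring_nf
  have hqx1 : (q : ℝ) * x < 1 := by
    by_contra hc
    rw [not_lt] at hc
    nlinarith
  have hpos : 0 < 1 - (q : ℝ) * x := by linarith
  have hinv : ((1 - x) ^ q)⁻¹ ≤ 1 + (1 + η) * (q * x) := by
    refine (inv_anti₀ hpos hbern).trans ?_
    exact inv_one_sub_le hη (by positivity) (by linarith)
  rw [hsd, mul_inv, mul_pow, inv_pow (1 - x)]
  have hsq : 0 ≤ (s⁻¹) ^ q := by positivity
  calc (s⁻¹) ^ q * ((1 - x) ^ q)⁻¹ ≤ (s⁻¹) ^ q * (1 + (1 + η) * (q * x)) :=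
        mul_le_mul_of_nonneg_left hinv hsq
    _ = (s⁻¹) ^ q + (1 + η) * q * ((s⁻¹) ^ (q + 1) * d) := by
        rw [pow_succ, hx]; field_simp

/-- The potential step. -/
theorem u_step {q : ℕ} {u z : ℝ} (hu : 0 < u) (hz : 0 ≤ z) (hzu : z < u) :
    (u⁻¹) ^ q * (1 + q * (z / u)) ≤ ((u - z)⁻¹) ^ q := by
  set x := z / u with hx
  have hx0 : 0 ≤ x := div_nonneg hz hu.le
  have hx1 : x < 1 := by rw [hx, div_lt_one hu]; exact hzu
  have h1x : 0 < 1 - x := by linarith
  have hxu : u - z = u * (1 - x) := by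
    rw [hx]; field_simp
  rw [hxu, mul_inv, mul_pow]
  apply mul_le_mul_of_nonneg_left _ (by positivity)
  have h1 : 1 + x ≤ (1 - x)⁻¹ := by
    rw [← one_div, le_div_iff₀ h1x]
    nlinarith
  calc 1 + (q : ℝ) * x ≤ (1 + x) ^ q := one_add_mul_le_pow (by linarith) q
    _ ≤ ((1 - x)⁻¹) ^ q := pow_le_pow_left₀ (by linarith) h1 q

/-- A cheap set of colours hitting all the lists of one part. -/
theorem exists_hitting {m : ℕ} {g : ℝ} (hg : GapAtMost m g) (hg0 : 0 ≤ g)
    (Λ : Fin m → Finset ℕ) (u : ℝ) (hu : 0 < u) (hΛ : ∀ a, u ≤ (Λ a).card)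
    (w : ℕ → ℝ) (hw : ∀ c, 0 ≤ w c) :
    ∃ K : Finset ℕ, K.card ≤ 2 ^ m ∧ (∀ a, ∃ c ∈ K, c ∈ Λ a) ∧
      ∑ c ∈ K, w c ≤ g * ((∑ c ∈ Finset.univ.biUnion Λ, w c) / u) := by
  classical
  set P := Finset.univ.biUnion Λ with hP
  let τ : ℕ → Finset (Fin m) := fun c => Finset.univ.filter (fun a => c ∈ Λ a)
  let A : Finset (Fin m) → Finset ℕ := fun T => P.filter (fun c => τ c = T)
  set Ω := (∑ c ∈ P, w c) / u with hΩ
  have hΩ0 : 0 ≤ Ω := div_nonneg (Finset.sum_nonneg fun c _ => hw c) hu.le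
  have hmin : ∀ T, ∃ c, (A T).Nonempty → (c ∈ A T ∧ ∀ c' ∈ A T, w c ≤ w c') := by
    intro T
    by_cases h : (A T).Nonempty
    · obtain ⟨c, hc, hc'⟩ := Finset.exists_min_image (A T) w h
      exact ⟨c, fun _ => ⟨hc, hc'⟩⟩
    · exact ⟨0, fun h' => absurd h' h⟩
  choose cT hcT using hmin
  let W : Finset (Fin m) → ℝ := fun T => if (A T).Nonempty then w (cT T) else g * Ω + 1
  have hBIG : 0 ≤ g * Ω := mul_nonneg hg0 hΩ0
  have hW : ∀ T, 0 ≤ W T := by
    intro T
    simp only [W]
    split_ifs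
    · exact hw _
    · linarith
  let y : Finset (Fin m) → ℝ := fun T => (A T).card / u
  have hy : IsFracCover m y := by
    refine ⟨fun T => div_nonneg (Nat.cast_nonneg _) hu.le, fun a => ?_⟩
    have h1 : (Λ a).card ≤ ∑ T ∈ Finset.univ.filter (fun T : Finset (Fin m) => a ∈ T),
        (A T).card := by
      rw [Finset.card_eq_sum_card_fiberwise (f := τ)
        (t := Finset.univ.filter (fun T : Finset (Fin m) => a ∈ T))]
      · apply Finset.sum_le_sum
        intro T _
        apply Finset.card_le_card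
        intro c hc
        rw [Finset.mem_filter] at hc
        simp only [A, Finset.mem_filter]
        exact ⟨Finset.mem_biUnion.2 ⟨a, Finset.mem_univ _, hc.1⟩, hc.2⟩
      · intro c hc
        simp only [Finset.coe_filter, Finset.mem_univ, true_and, Set.mem_ofPred_eq, τ,
          Finset.mem_filter]
        exact hc
    simp only [y]
    rw [← Finset.sum_div, le_div_iff₀ hu, one_mul]
    refine (hΛ a).trans ?_
    exact_mod_cast h1
  have hsum : ∑ T, W T * y T ≤ Ω := by
    have h1 : ∀ T, W T * y T ≤ (∑ c ∈ A T, w c) / u := by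
      intro T
      simp only [W, y]
      by_cases h : (A T).Nonempty
      · rw [if_pos h, ← mul_div_assoc]
        apply div_le_div_of_nonneg_right _ hu.le
        have := Finset.card_nsmul_le_sum (A T) w (w (cT T)) (hcT T h).2
        rw [nsmul_eq_mul] at this
        linarith
      · rw [if_neg h]
        rw [Finset.not_nonempty_iff_eq_empty] at h
        rw [h]
        simp
    calc ∑ T, W T * y T ≤ ∑ T, (∑ c ∈ A T, w c) / u := Finset.sum_le_sum fun T _ => h1 T
      _ = (∑ T, ∑ c ∈ A T, w c) / u := by rw [Finset.sum_div]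
      _ = Ω := by
        rw [hΩ]
        congr 1
        exact Finset.sum_fiberwise P τ w
  obtain ⟨C, hC, hCc⟩ := hg W y hW hy
  have hCc' : ∑ T ∈ C, W T ≤ g * Ω := hCc.trans (mul_le_mul_of_nonneg_left hsum hg0)
  have hne : ∀ T ∈ C, (A T).Nonempty := by
    intro T hT
    by_contra h
    have h1 : W T ≤ ∑ T ∈ C, W T := Finset.single_le_sum (fun T _ => hW T) hT
    simp only [W, if_neg h] at h1
    simp only [W] at hCc'
    linarith
  refine ⟨C.image cT, ?_, ?_, ?_⟩
  · refine Finset.card_image_le.trans ?_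
    refine (Finset.card_le_univ C).trans ?_
    simp
  · intro a
    obtain ⟨T, hT, haT⟩ := hC a
    refine ⟨cT T, Finset.mem_image_of_mem _ hT, ?_⟩
    have h1 := (hcT T (hne T hT)).1
    simp only [A, Finset.mem_filter] at h1
    rw [← h1.2] at haT
    simpa [τ] using haT
  · rw [Finset.sum_image]
    · refine le_trans (le_of_eq ?_) hCc'
      apply Finset.sum_congr rfl
      intro T hT
      simp only [W, if_pos (hne T hT)]
    · intro T hT T' hT' h
      have h1 := (hcT T (hne T hT)).1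
      have h2 := (hcT T' (hne T' hT')).1
      simp only [A, Finset.mem_filter] at h1 h2
      rw [← h1.2, ← h2.2, h]

/-- The sequential colouring procedure, controlled by the potential `∑ |L|^{-q}`. -/
theorem step_induction {ι : Type} [DecidableEq ι] {m : ℕ} {g η : ℝ} (hg : GapAtMost m g)
    (hg0 : 0 ≤ g) (hη : 0 < η) (q : ℕ) (hq : 1 ≤ q) (B : ℝ)
    (hB : (q : ℝ) * 2 ^ m * (1 + η) ≤ η * B) :
    ∀ n : ℕ, ∀ (R : Finset ι) (L : ι → Fin m → Finset ℕ) (u : ℝ), R.card = n →
      (∀ i ∈ R, ∀ a, (L i a).Nonempty) →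
      B + (1 + η) * g * n ≤ u →
      ∑ i ∈ R, ∑ a, (((L i a).card : ℝ)⁻¹) ^ q ≤ (u⁻¹) ^ q →
      ∃ f : ι → Fin m → ℕ, (∀ i ∈ R, ∀ a, f i a ∈ L i a) ∧
        ∀ i ∈ R, ∀ j ∈ R, i ≠ j → ∀ a b, f i a ≠ f j b := by
  have hq' : (1 : ℝ) ≤ q := by exact_mod_cast hq
  have h2m : (0 : ℝ) < 2 ^ m := by positivity
  have hBpos : (2 : ℝ) ^ m < B := by
    have h1 : (2 : ℝ) ^ m * (1 + η) ≤ (q : ℝ) * 2 ^ m * (1 + η) := by
      have : (2 : ℝ) ^ m ≤ (q : ℝ) * 2 ^ m := by nlinarith
      nlinarith
    by_contra hc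
    rw [not_lt] at hc
    nlinarith
  intro n
  induction n with
  | zero =>
    intro R L u hR _ _ _
    rw [Finset.card_eq_zero] at hR
    subst hR
    exact ⟨fun _ _ => 0, by simp, by simp⟩
  | succ n ih =>
    intro R L u hR hne hu hΦ
    obtain ⟨i, hi⟩ : R.Nonempty := by
      rw [← Finset.card_pos]; omega
    set R' := R.erase i with hR'
    have hR'c : R'.card = n := by rw [hR', Finset.card_erase_of_mem hi]; omega
    set z := (1 + η) * g with hz
    have hz0 : 0 ≤ z := by positivity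
    have hupos : 0 < u := by
      have : 0 ≤ z * ((n + 1 : ℕ) : ℝ) := by positivity
      linarith
    have hzu : z < u := by
      have : z ≤ z * ((n + 1 : ℕ) : ℝ) := by
        push_cast
        nlinarith [Nat.cast_nonneg (α := ℝ) n]
      linarith
    have huB : B ≤ u := by
      have : 0 ≤ z * ((n + 1 : ℕ) : ℝ) := by positivity
      linarith
    -- all lists are long
    have hlong : ∀ j ∈ R, ∀ a, u ≤ ((L j a).card : ℝ) := by
      intro j hj a
      have hcpos : (0 : ℝ) < ((L j a).card : ℝ) := by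
        exact_mod_cast Finset.card_pos.2 (hne j hj a)
      have h1 : (((L j a).card : ℝ)⁻¹) ^ q ≤ (u⁻¹) ^ q := by
        refine le_trans ?_ hΦ
        refine le_trans ?_ (Finset.single_le_sum (f := fun i => ∑ a, (((L i a).card : ℝ)⁻¹) ^ q)
          (fun i _ => Finset.sum_nonneg fun a _ => by positivity) hj)
        exact Finset.single_le_sum (f := fun a => (((L j a).card : ℝ)⁻¹) ^ q)
          (fun a _ => by positivity) (Finset.mem_univ a)
      have h2 : ((L j a).card : ℝ)⁻¹ ≤ u⁻¹ :=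
        le_of_pow_le_pow_left₀ (by omega) (by positivity) h1
      rwa [inv_le_inv₀ hcpos hupos] at h2
    -- costs of the colours
    let w : ℕ → ℝ := fun c => ∑ j ∈ R', ∑ a, if c ∈ L j a then (((L j a).card : ℝ)⁻¹) ^ (q + 1)
      else 0
    have hw : ∀ c, 0 ≤ w c := by
      intro c
      apply Finset.sum_nonneg; intro j _
      apply Finset.sum_nonneg; intro a _
      split_ifs
      · positivity
      · exact le_refl _
    have hwsum : ∀ K : Finset ℕ, ∑ c ∈ K, w c =
        ∑ j ∈ R', ∑ a, (((L j a).card : ℝ)⁻¹) ^ (q + 1) * ((K ∩ L j a).card : ℝ) := by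
      intro K
      simp only [w]
      rw [Finset.sum_comm]
      apply Finset.sum_congr rfl; intro j _
      rw [Finset.sum_comm]
      apply Finset.sum_congr rfl; intro a _
      rw [← Finset.sum_filter, Finset.sum_const, nsmul_eq_mul, mul_comm]
      congr 2
    set Φ' := ∑ j ∈ R', ∑ a, (((L j a).card : ℝ)⁻¹) ^ q with hΦ'
    have hΦ'le : Φ' ≤ (u⁻¹) ^ q := by
      refine le_trans ?_ hΦ
      apply Finset.sum_le_sum_of_subset_of_nonneg (Finset.erase_subset _ _)
      intro j _ _
      exact Finset.sum_nonneg fun a _ => by positivity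
    have hΦ'0 : 0 ≤ Φ' := Finset.sum_nonneg fun j _ => Finset.sum_nonneg fun a _ => by positivity
    obtain ⟨K, hKc, hKhit, hKw⟩ := exists_hitting hg hg0 (L i) u hupos (hlong i hi) w hw
    have hPw : ∑ c ∈ Finset.univ.biUnion (L i), w c ≤ Φ' := by
      rw [hwsum]
      apply Finset.sum_le_sum; intro j hj
      apply Finset.sum_le_sum; intro a _
      have hjR : j ∈ R := Finset.mem_of_mem_erase hj
      have hcpos : (0 : ℝ) < ((L j a).card : ℝ) := by
        exact_mod_cast Finset.card_pos.2 (hne j hjR a)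
      have h1 : (((Finset.univ.biUnion (L i)) ∩ L j a).card : ℝ) ≤ ((L j a).card : ℝ) := by
        exact_mod_cast Finset.card_le_card Finset.inter_subset_right
      calc (((L j a).card : ℝ)⁻¹) ^ (q + 1) * (((Finset.univ.biUnion (L i)) ∩ L j a).card : ℝ)
          ≤ (((L j a).card : ℝ)⁻¹) ^ (q + 1) * ((L j a).card : ℝ) :=
            mul_le_mul_of_nonneg_left h1 (by positivity)
        _ = (((L j a).card : ℝ)⁻¹) ^ q := by
            rw [pow_succ]; field_simp
    have hKw' : ∑ c ∈ K, w c ≤ g * (Φ' / u) :=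
      hKw.trans (mul_le_mul_of_nonneg_left (div_le_div_of_nonneg_right hPw hupos.le) hg0)
    -- new lists
    let L' : ι → Fin m → Finset ℕ := fun j a => L j a \ K
    have hcard' : ∀ j a, ((L' j a).card : ℝ) = ((L j a).card : ℝ) - ((K ∩ L j a).card : ℝ) := by
      intro j a
      have := Finset.card_sdiff_add_card_inter (L j a) K
      rw [Finset.inter_comm] at this
      simp only [L']
      rw [← this]
      push_cast
      ring_nf
    have hKd : ∀ j a, ((K ∩ L j a).card : ℝ) ≤ 2 ^ m := by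
      intro j a
      have h1 : (K ∩ L j a).card ≤ 2 ^ m :=
        (Finset.card_le_card Finset.inter_subset_left).trans hKc
      exact_mod_cast h1
    have hne' : ∀ j ∈ R', ∀ a, (L' j a).Nonempty := by
      intro j hj a
      rw [← Finset.card_pos]
      have h1 : (0 : ℝ) < ((L' j a).card : ℝ) := by
        rw [hcard']
        have := hlong j (Finset.mem_of_mem_erase hj) a
        have := hKd j a
        linarith
      exact_mod_cast h1
    have hΦnew : ∑ j ∈ R', ∑ a, (((L' j a).card : ℝ)⁻¹) ^ q ≤ ((u - z)⁻¹) ^ q := by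
      have h1 : ∀ j ∈ R', ∀ a, (((L' j a).card : ℝ)⁻¹) ^ q ≤ (((L j a).card : ℝ)⁻¹) ^ q +
          (1 + η) * q * ((((L j a).card : ℝ)⁻¹) ^ (q + 1) * ((K ∩ L j a).card : ℝ)) := by
        intro j hj a
        rw [hcard']
        have hjR := Finset.mem_of_mem_erase hj
        have hl := hlong j hjR a
        apply pow_step hη (Nat.cast_nonneg _) (by linarith) _ hq
        have hd := hKd j a
        calc (q : ℝ) * ((K ∩ L j a).card : ℝ) * (1 + η) ≤ (q : ℝ) * 2 ^ m * (1 + η) := by
              apply mul_le_mul_of_nonneg_right _ (by linarith)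
              exact mul_le_mul_of_nonneg_left hd (by linarith)
          _ ≤ η * B := hB
          _ ≤ η * ((L j a).card : ℝ) := mul_le_mul_of_nonneg_left (by linarith) hη.le
      calc ∑ j ∈ R', ∑ a, (((L' j a).card : ℝ)⁻¹) ^ q
          ≤ ∑ j ∈ R', ∑ a, ((((L j a).card : ℝ)⁻¹) ^ q +
          (1 + η) * q * ((((L j a).card : ℝ)⁻¹) ^ (q + 1) * ((K ∩ L j a).card : ℝ))) :=
            Finset.sum_le_sum fun j hj => Finset.sum_le_sum fun a _ => h1 j hj a
        _ = Φ' + (1 + η) * q * ∑ c ∈ K, w c := by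
            rw [hwsum, hΦ', Finset.mul_sum, ← Finset.sum_add_distrib]
            apply Finset.sum_congr rfl; intro j _
            rw [Finset.sum_add_distrib, Finset.mul_sum]
        _ ≤ Φ' + (1 + η) * q * (g * (Φ' / u)) := by
            have : 0 ≤ (1 + η) * (q : ℝ) := by positivity
            have := mul_le_mul_of_nonneg_left hKw' this
            linarith
        _ = Φ' * (1 + q * (z / u)) := by rw [hz]; ring
        _ ≤ (u⁻¹) ^ q * (1 + q * (z / u)) :=
            mul_le_mul_of_nonneg_right hΦ'le (by positivity)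
        _ ≤ ((u - z)⁻¹) ^ q := u_step hupos hz0 hzu
    obtain ⟨f, hf1, hf2⟩ := ih R' L' (u - z) hR'c hne' (by push_cast at hu; linarith) hΦnew
    choose κ hκ1 hκ2 using hKhit
    refine ⟨fun j a => if j = i then κ a else f j a, ?_, ?_⟩
    · intro j hj a
      by_cases h : j = i
      · subst h; simp only [if_true]; exact hκ2 a
      · simp only [if_neg h]
        have := hf1 j (Finset.mem_erase.2 ⟨h, hj⟩) a
        simp only [L'] at this
        exact (Finset.mem_sdiff.1 this).1
    · intro j hj l hl hjl a b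
      by_cases h : j = i
      · have h' : l ≠ i := fun e => hjl (h.trans e.symm)
        simp only [if_pos h, if_neg h']
        intro e
        have := hf1 l (Finset.mem_erase.2 ⟨h', hl⟩) b
        simp only [L'] at this
        exact (Finset.mem_sdiff.1 this).2 (e ▸ hκ1 a)
      · by_cases h' : l = i
        · simp only [if_neg h, if_pos h']
          intro e
          have := hf1 j (Finset.mem_erase.2 ⟨h, hj⟩) a
          simp only [L'] at this
          exact (Finset.mem_sdiff.1 this).2 (e ▸ hκ1 b)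
        · simp only [if_neg h, if_neg h']
          exact hf2 j (Finset.mem_erase.2 ⟨h, hj⟩) l (Finset.mem_erase.2 ⟨h', hl⟩) hjl a b

end Pool.Agent.TH454.CM
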