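import Mathlib
import Pool.Agent.TH454.CM.Upper

set_option autoImplicit false

namespace Pool.Agent.TH454.CM

open Finset Filter

/-- Upper bound: lists of size `(g + ε) k` suffice for `k` parts of size `m`, `k` large. -/
theorem upper {m : ℕ} {g : ℝ} (hg : GapAtMost m g) (hg0 : 0 < g) {ε : ℝ} (hε : 0 < ε) :
    ∃ K0 : ℕ, ∀ k : ℕ, K0 ≤ k → ∀ L : Fin k → Fin m → Finset ℕ,
      (∀ i a, (g + ε) * k ≤ ((L i a).card : ℝ)) →
      ∃ f : Fin k → Fin m → ℕ, (∀ i a, f i a ∈ L i a) ∧ ∀ i j, i ≠ j → ∀ a b, f i a ≠ f j b := by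
  classical
  -- parameters
  set η := min 1 (ε / (4 * g)) with hη
  have hη0 : 0 < η := by rw [hη]; exact lt_min one_pos (by positivity)
  have hη1 : η ≤ 1 := min_le_left _ _
  have hηg : η * (4 * g) ≤ ε := by
    have : η ≤ ε / (4 * g) := min_le_right _ _
    rwa [le_div_iff₀ (by positivity)] at this
  have h1η : (0 : ℝ) < 1 + η := by linarith
  set ρ := (g + ε) / (1 + η) - (1 + η) * g with hρ
  have hρ0 : 0 < ρ := by
    rw [hρ, sub_pos, lt_div_iff₀ h1η]
    nlinarith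
  have h2m : (0 : ℝ) < 2 ^ m := by positivity
  set δ := ρ * η / (2 ^ m * (1 + η)) with hδ
  have hδ0 : 0 < δ := by positivity
  -- the exponential beats the linear function
  have hc : (0 : ℝ) < δ / (2 * (m + 1)) := by positivity
  have hlim := tendsto_pow_const_div_const_pow_of_one_lt 1 (show (1 : ℝ) < 1 + η by linarith)
  have hev := (hlim.eventually (gt_mem_nhds hc)).exists_forall_of_atTop
  obtain ⟨Q0, hQ0⟩ := hev
  obtain ⟨K0, hK0⟩ := exists_nat_ge ((Q0 + 2 : ℝ) / δ)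
  refine ⟨K0 + 1, fun k hk L hL => ?_⟩
  have hkpos : (0 : ℝ) < k := by
    have : 0 < k := by omega
    exact_mod_cast this
  have hkδ : (Q0 + 2 : ℝ) ≤ δ * k := by
    have h1 : (Q0 + 2 : ℝ) / δ ≤ k := by
      refine hK0.trans ?_
      exact_mod_cast (by omega : K0 ≤ k)
    rw [div_le_iff₀ hδ0] at h1
    linarith
  set q := ⌊δ * k⌋₊ with hq
  have hqle : (q : ℝ) ≤ δ * k := Nat.floor_le (by positivity)
  have hqgt : δ * k < q + 1 := Nat.lt_floor_add_one _
  have hqQ : Q0 ≤ q := by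
    rw [hq]
    apply Nat.le_floor
    linarith
  have hq1 : 1 ≤ q := by
    rw [hq]
    apply Nat.le_floor
    push_cast
    have : (0 : ℝ) ≤ Q0 := Nat.cast_nonneg _
    linarith
  have hq1' : (1 : ℝ) ≤ q := by exact_mod_cast hq1
  have hpow : (k : ℝ) * m ≤ (1 + η) ^ q := by
    have h1 := hQ0 q hqQ
    have hrq : (0 : ℝ) < (1 + η) ^ q := by positivity
    rw [pow_one, div_lt_iff₀ hrq, div_mul_eq_mul_div, lt_div_iff₀ (by positivity)] at h1
    -- q * (2 (m+1)) < δ (1+η)^q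
    have h2 : δ * (k * m) ≤ δ * (1 + η) ^ q := by
      have hm0 : (0 : ℝ) ≤ m := Nat.cast_nonneg _
      calc δ * (k * m) = (δ * k) * m := by ring
        _ ≤ (q + 1) * m := mul_le_mul_of_nonneg_right hqgt.le hm0
        _ ≤ (2 * q) * m := mul_le_mul_of_nonneg_right (by linarith) hm0
        _ ≤ q * (2 * (m + 1)) := by nlinarith
        _ ≤ δ * (1 + η) ^ q := h1.le
    exact le_of_mul_le_mul_left h2 hδ0
  set B := (q : ℝ) * 2 ^ m * (1 + η) / η with hB
  have hB' : (q : ℝ) * 2 ^ m * (1 + η) ≤ η * B := by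
    rw [hB]; apply le_of_eq; field_simp
  set u := (g + ε) * k / (1 + η) with hu
  have hu0 : 0 < u := by positivity
  have hcard : (Finset.univ : Finset (Fin k)).card = k := by simp
  have hpos : ∀ i a, (0 : ℝ) < ((L i a).card : ℝ) := fun i a =>
    lt_of_lt_of_le (by positivity) (hL i a)
  have hA : B + (1 + η) * g * k ≤ u := by
    have h1 : B ≤ ρ * k := by
      rw [hB, div_le_iff₀ hη0]
      calc (q : ℝ) * 2 ^ m * (1 + η) = q * (2 ^ m * (1 + η)) := by ring
        _ ≤ (δ * k) * (2 ^ m * (1 + η)) := mul_le_mul_of_nonneg_right hqle (by positivity)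
        _ = ρ * k * η := by rw [hδ]; field_simp
    have h2 : u = ρ * k + (1 + η) * g * k := by
      rw [hu, hρ]; ring
    linarith
  have hBB : ∑ i : Fin k, ∑ a : Fin m, (((L i a).card : ℝ)⁻¹) ^ q ≤ (u⁻¹) ^ q := by
    have hgk : (0 : ℝ) < (g + ε) * k := by positivity
    have h1 : ∀ i a, (((L i a).card : ℝ)⁻¹) ^ q ≤ (((g + ε) * k)⁻¹) ^ q := by
      intro i a
      apply pow_le_pow_left₀ (by positivity)
      exact inv_anti₀ hgk (hL i a)
    calc ∑ i : Fin k, ∑ a : Fin m, (((L i a).card : ℝ)⁻¹) ^ q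
        ≤ ∑ i : Fin k, ∑ a : Fin m, (((g + ε) * k)⁻¹) ^ q :=
          Finset.sum_le_sum fun i _ => Finset.sum_le_sum fun a _ => h1 i a
      _ = (k * m) * (((g + ε) * k)⁻¹) ^ q := by
          simp [Finset.sum_const]; ring
      _ ≤ (1 + η) ^ q * (((g + ε) * k)⁻¹) ^ q :=
          mul_le_mul_of_nonneg_right hpow (by positivity)
      _ = (u⁻¹) ^ q := by
          rw [← mul_pow, hu]
          congr 1
          field_simp
  obtain ⟨f, hf1, hf2⟩ := step_induction hg hg0.le hη0 q hq1 B hB' k Finset.univ L u hcard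
    (fun i _ a => Finset.card_pos.1 (by exact_mod_cast hpos i a)) hA hBB
  exact ⟨f, fun i a => hf1 i (Finset.mem_univ _) a,
      fun i j h a b => hf2 i (Finset.mem_univ _) j (Finset.mem_univ _) h a b⟩

end Pool.Agent.TH454.CM
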