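import Mathlib
import Pool.Agent.TH454.CM.Upper2
import Pool.Agent.TH454.CM.Lower

set_option autoImplicit false

namespace Pool.Agent.TH454.CM

open Finset Filter

theorem gapAtMost_self (m : ℕ) : GapAtMost m m := by
  classical
  intro w y hw hy
  have hex : ∀ a : Fin m, ∃ T : Finset (Fin m), a ∈ T ∧ ∀ T', a ∈ T' → w T ≤ w T' := by
    intro a
    have hne : (Finset.univ.filter (fun T : Finset (Fin m) => a ∈ T)).Nonempty :=
      ⟨{a}, by simp⟩
    obtain ⟨T, hT, hT'⟩ := Finset.exists_min_image _ w hne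
    refine ⟨T, by simpa using hT, fun T' h => hT' T' (by simpa using h)⟩
  choose t ht1 ht2 using hex
  refine ⟨Finset.univ.image t, fun a => ⟨t a, Finset.mem_image_of_mem _ (Finset.mem_univ _),
    ht1 a⟩, ?_⟩
  have h1 : ∀ a, w (t a) ≤ ∑ T, w T * y T := by
    intro a
    calc w (t a) = w (t a) * 1 := by ring
      _ ≤ w (t a) * ∑ T ∈ Finset.univ.filter (fun T : Finset (Fin m) => a ∈ T), y T :=
          mul_le_mul_of_nonneg_left (hy.2 a) (hw _)
      _ = ∑ T ∈ Finset.univ.filter (fun T : Finset (Fin m) => a ∈ T), w (t a) * y T := by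
          rw [Finset.mul_sum]
      _ ≤ ∑ T ∈ Finset.univ.filter (fun T : Finset (Fin m) => a ∈ T), w T * y T := by
          apply Finset.sum_le_sum
          intro T hT
          apply mul_le_mul_of_nonneg_right _ (hy.1 T)
          exact ht2 a T (by simpa using hT)
      _ ≤ ∑ T, w T * y T := by
          apply Finset.sum_le_sum_of_subset_of_nonneg (Finset.filter_subset _ _)
          intro T _ _
          exact mul_nonneg (hw T) (hy.1 T)
  calc ∑ T ∈ Finset.univ.image t, w T ≤ ∑ a, w (t a) :=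
        Finset.sum_image_le_of_nonneg (fun a _ => hw _)
    _ ≤ ∑ _a : Fin m, ∑ T, w T * y T := Finset.sum_le_sum fun a _ => h1 a
    _ = m * ∑ T, w T * y T := by simp

theorem one_le_of_gapAtMost {m : ℕ} (hm : 1 ≤ m) {g : ℝ} (hg : GapAtMost m g) : 1 ≤ g := by
  classical
  obtain ⟨C, hC, hCc⟩ := hg (fun _ => 1) (fun T => if T = Finset.univ then 1 else 0)
    (fun _ => zero_le_one) ⟨fun T => by dsimp only; split_ifs <;> norm_num, fun a => by
      have : (Finset.univ : Finset (Fin m)) ∈
          Finset.univ.filter (fun T : Finset (Fin m) => a ∈ T) := by simp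
      refine le_trans (le_of_eq ?_) (Finset.single_le_sum
        (f := fun T : Finset (Fin m) => if T = Finset.univ then (1 : ℝ) else 0)
        (fun T _ => by split_ifs <;> norm_num) this)
      simp⟩
  have h1 : (1 : ℝ) ≤ ∑ T ∈ C, (1 : ℝ) := by
    obtain ⟨T, hT, _⟩ := hC ⟨0, by omega⟩
    rw [Finset.sum_const, nsmul_eq_mul, mul_one]
    exact_mod_cast Finset.card_pos.2 ⟨T, hT⟩
  have h2 : ∑ T : Finset (Fin m), (1 : ℝ) * (if T = Finset.univ then (1 : ℝ) else 0) = 1 := by
    simp
  rw [h2] at hCc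
  linarith

theorem gap_set_nonempty (m : ℕ) : {g : ℝ | GapAtMost m g}.Nonempty := ⟨m, gapAtMost_self m⟩

theorem gap_set_bddBelow {m : ℕ} (hm : 1 ≤ m) : BddBelow {g : ℝ | GapAtMost m g} :=
  ⟨1, fun _ hg => one_le_of_gapAtMost hm hg⟩

/-- the property in the definition of the choice number, for the complete equipartite graph -/
theorem choosable_iff (k m s : ℕ) :
    (∀ L : Fin k × Fin m → Finset ℕ, (∀ v, (L v).card = s) →
      ∃ f : Fin k × Fin m → ℕ, (∀ v, f v ∈ L v) ∧
        ∀ u v, (SimpleGraph.completeEquipartiteGraph k m).Adj u v → f u ≠ f v) ↔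
    (∀ L : Fin k → Fin m → Finset ℕ, (∀ i a, (L i a).card = s) →
      ∃ f : Fin k → Fin m → ℕ, (∀ i a, f i a ∈ L i a) ∧
        ∀ i j, i ≠ j → ∀ a b, f i a ≠ f j b) := by
  constructor
  · intro h L hL
    obtain ⟨f, hf1, hf2⟩ := h (fun v => L v.1 v.2) (fun v => hL _ _)
    refine ⟨fun i a => f (i, a), fun i a => hf1 (i, a), fun i j hij a b => ?_⟩
    apply hf2
    rw [SimpleGraph.completeEquipartiteGraph_adj]
    exact hij
  · intro h L hL
    obtain ⟨f, hf1, hf2⟩ := h (fun i a => L (i, a)) (fun i a => hL _)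
    refine ⟨fun v => f v.1 v.2, fun v => hf1 _ _, fun u v huv => ?_⟩
    rw [SimpleGraph.completeEquipartiteGraph_adj] at huv
    exact hf2 _ _ huv _ _

/-- The normalised choice number of `K_{m*k}` converges to the integrality gap. -/
theorem tendsto_choiceNum (m : ℕ) (hm : 1 ≤ m) :
    Tendsto (fun k : ℕ => (choiceNum (SimpleGraph.completeEquipartiteGraph k m) : ℝ) / k)
      atTop (nhds (gap m)) := by
  have hup : ∀ b : ℝ, gap m < b → ∃ K0 : ℕ, ∀ k : ℕ, K0 ≤ k →
      (∀ L : Fin k × Fin m → Finset ℕ, (∀ v, (L v).card = ⌈b * k⌉₊) →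
      ∃ f : Fin k × Fin m → ℕ, (∀ v, f v ∈ L v) ∧
        ∀ u v, (SimpleGraph.completeEquipartiteGraph k m).Adj u v → f u ≠ f v) := by
    intro b hb
    obtain ⟨g, hg, hgb⟩ := exists_lt_of_csInf_lt (gap_set_nonempty m) hb
    have hg1 : 1 ≤ g := one_le_of_gapAtMost hm hg
    obtain ⟨K0, hK0⟩ := upper hg (by linarith) (show 0 < b - g by linarith)
    refine ⟨K0, fun k hk => ?_⟩
    rw [choosable_iff]
    intro L hL
    apply hK0 k hk
    intro i a
    rw [hL i a]
    have : g + (b - g) = b := by ring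
    rw [this]
    exact Nat.le_ceil _
  rw [tendsto_order]
  constructor
  · intro a ha
    by_cases ha0 : a < 0
    · filter_upwards with k
      exact lt_of_lt_of_le ha0 (by positivity)
    · rw [not_lt] at ha0
      obtain ⟨g, hag, hgg⟩ := exists_between ha
      have hng : ¬ GapAtMost m g := by
        intro h
        have : gap m ≤ g := csInf_le (gap_set_bddBelow hm) h
        linarith
      obtain ⟨K0, hK0⟩ := lower (by linarith) hng
      obtain ⟨K1, hK1⟩ := hup (gap m + 1) (by linarith)
      filter_upwards [eventually_ge_atTop (max (max K0 K1) 1)] with k hk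
      have hk0 : K0 ≤ k := le_trans (le_trans (le_max_left _ _) (le_max_left _ _)) hk
      have hk1 : K1 ≤ k := le_trans (le_trans (le_max_right _ _) (le_max_left _ _)) hk
      have hk2 : 1 ≤ k := le_trans (le_max_right _ _) hk
      have hkpos : (0 : ℝ) < k := by exact_mod_cast hk2
      have hmem := Nat.sInf_mem (s := {s : ℕ | ∀ L : Fin k × Fin m → Finset ℕ,
        (∀ v, (L v).card = s) → ∃ f : Fin k × Fin m → ℕ, (∀ v, f v ∈ L v) ∧
        ∀ u v, (SimpleGraph.completeEquipartiteGraph k m).Adj u v → f u ≠ f v})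
        ⟨_, hK1 k hk1⟩
      change choiceNum (SimpleGraph.completeEquipartiteGraph k m) ∈ _ at hmem
      rw [Set.mem_ofPred_eq, choosable_iff] at hmem
      set s := choiceNum (SimpleGraph.completeEquipartiteGraph k m) with hs
      have hgs : g * k < s := by
        by_contra hcon
        rw [not_lt] at hcon
        obtain ⟨L, hL1, hL2⟩ := hK0 k hk0
        apply hL2
        have hsub : ∀ i a, ∃ S, S ⊆ L i a ∧ S.card = s := by
          intro i a
          apply Finset.exists_subset_card_eq
          have := hcon.trans (hL1 i a)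
          exact_mod_cast this
        choose S hS1 hS2 using hsub
        obtain ⟨f, hf1, hf2⟩ := hmem S hS2
        exact ⟨f, fun i a => hS1 i a (hf1 i a), hf2⟩
      rw [lt_div_iff₀ hkpos]
      nlinarith
  · intro a ha
    obtain ⟨b, hb1, hb2⟩ := exists_between ha
    obtain ⟨K1, hK1⟩ := hup b hb1
    have hab : 0 < a - b := by linarith
    have hb0 : 0 < b := by
      have : 1 ≤ gap m := le_csInf (gap_set_nonempty m) fun g hg => one_le_of_gapAtMost hm hg
      linarith
    obtain ⟨K2, hK2⟩ := exists_nat_gt (1 / (a - b))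
    filter_upwards [eventually_ge_atTop (max (max K1 K2) 1)] with k hk
    have hk1 : K1 ≤ k := le_trans (le_trans (le_max_left _ _) (le_max_left _ _)) hk
    have hk2 : K2 ≤ k := le_trans (le_trans (le_max_right _ _) (le_max_left _ _)) hk
    have hk3 : 1 ≤ k := le_trans (le_max_right _ _) hk
    have hkpos : (0 : ℝ) < k := by exact_mod_cast hk3
    have h1 : choiceNum (SimpleGraph.completeEquipartiteGraph k m) ≤ ⌈b * k⌉₊ :=
      Nat.sInf_le (hK1 k hk1)
    have h2 : (choiceNum (SimpleGraph.completeEquipartiteGraph k m) : ℝ) < b * k + 1 := by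
      have : ((⌈b * k⌉₊ : ℕ) : ℝ) < b * k + 1 := Nat.ceil_lt_add_one (by positivity)
      have h1' : (choiceNum (SimpleGraph.completeEquipartiteGraph k m) : ℝ) ≤
        ((⌈b * k⌉₊ : ℕ) : ℝ) := by exact_mod_cast h1
      linarith
    have h3 : 1 / (a - b) < k := hK2.trans_le (by exact_mod_cast hk2)
    rw [div_lt_iff₀ hab] at h3
    rw [div_lt_iff₀ hkpos]
    nlinarith

end Pool.Agent.TH454.CM
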